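import Pool.Agent.H27.L1.H34.GZ.Targets1
import Pool.Agent.H27.L1.H34.GM.Targets2

/-!
Targets of the board gz, wave 2: the forms, the operators, the Mellin transform
(page H34_GZ.md, sections 4 - 6).
-/

namespace Pool.Agent.H27.L1.H34.GZ

open MeasureTheory Pool.Agent.H27.L1.H34.GM

/-- all the data -/
structure SysZ (m q : ℕ) (T : ℕ → Finset (ZM m)) (D : Set (V m)) : Prop where
  one_le : 1 ≤ m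
  two_le : 1 ≤ q
  nt : 2 ≤ q ∨ 2 ≤ m
  reps : RepsZ m T
  dom : DomZ m D

/-- smooth test functions -/
structure TstS (m : ℕ) (Φ : Mat m → ℂ) : Prop extends Tst m Φ where
  smooth : ContDiff ℝ ((⊤ : ℕ∞) : WithTop ℕ∞) (fun z : V m => Φ (mt z))
  comp : HasCompactSupport (fun z : V m => Φ (mt z))

/-- decaying functions -/
structure Dec (m : ℕ) (Ψ : Mat m → ℂ) : Prop where
  cont : Continuous Ψ
  dec : ∀ N : ℕ, ∃ C : ℝ, 0 ≤ C ∧ ∀ z, ‖Ψ z‖ ≤ C * (1 + sz z) ^ (-(N : ℝ))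
  left : ∀ u : Mat m, u * u.transpose = 1 → ∀ z, Ψ (u * z) = Ψ z
  right : ∀ u : Mat m, u * u.transpose = 1 → ∀ z, Ψ (z * u) = Ψ z

/-- uniform bounds for the local transform -/
structure ThB {m : ℕ} (Ψ : Mat m → ℂ) (mu : Fin m → ℂ) (M ε : ℝ) (K : ℕ) : Prop where
  diff : DifferentiableOn ℝ (th1 Ψ mu) (Set.Ioi 0)
  bd0 : ∀ r : ℝ, 0 < r → ‖th1 Ψ mu r‖ ≤ M * min (r ^ K) (r ^ ((m : ℝ) ^ 2 / 2 + ε))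
  bd1 : ∀ r : ℝ, 0 < r → r * ‖deriv (th1 Ψ mu) r‖ ≤ M * min (r ^ K) (r ^ ((m : ℝ) ^ 2 / 2 + ε))

/-! ### algebra and measure theory -/

/-- integer matrices, real matrices, residues -/
def T_ALZ : Prop := ∀ (m q : ℕ), 1 ≤ m → 1 ≤ q → ∀ [NeZero q],
  ((cR (1 : ZM m) = 1 ∧ ∀ α β : ZM m, cR (α * β) = cR α * cR β ∧ cR (α + β) = cR α + cR β ∧
      (cR α = cR β → α = β)) ∧
    ∀ α : ZM m, (cR α).det = ((α.det : ℤ) : ℝ) ∧ |(cR α).det| = (α.det.natAbs : ℝ)) ∧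
  (cQ q (1 : ZM m) = 1 ∧ cQ q (0 : ZM m) = 0 ∧ (∀ α β : ZM m, cQ q (α * β) = cQ q α * cQ q β ∧
      cQ q (α + β) = cQ q α + cQ q β) ∧
    (∀ x : RM m q, ∃ α : ZM m, cQ q α = x) ∧
    (∀ α : ZM m, cQ q α = 0 ↔ ∃ w : ZM m, α = (q : ℤ) • w)) ∧
  Fintype.card (RM m q) = q ^ (m ^ 2) ∧
  (∀ α : ZM m, IsUnit (cQ q α) ↔ α.det.natAbs.Coprime q) ∧
  (∀ γ : ZM m, IsUnit γ ↔ γ.det.natAbs = 1) ∧
  (∀ x y : RM m q, IsUnit (x * y) ↔ IsUnit x ∧ IsUnit y) ∧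
  (∀ x : RM m q, IsUnit x → Ring.inverse x * x = 1 ∧ x * Ring.inverse x = 1 ∧
    IsUnit (Ring.inverse x))

/-- the additive character -/
def T_PSZ : Prop := ∀ (m q : ℕ), 1 ≤ m → 1 ≤ q → ∀ [NeZero q],
    (∀ α : ZM m, psq q (cQ q α) = ee ((α.trace : ℝ) / q)) ∧ psq q (0 : RM m q) = 1 ∧
    (∀ x y : RM m q, psq q (x + y) = psq q x * psq q y) ∧ (∀ x : RM m q, ‖psq q x‖ = 1) ∧
    (∀ x : RM m q, psq q (-x) = (starRingEnd ℂ) (psq q x)) ∧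
    (∀ x y : RM m q, psq q (x * y) = psq q (y * x)) ∧
    (∀ x : RM m q, (∀ y, psq q (x * y) = 1) → x = 0) ∧
    ∀ x : RM m q, x ≠ 0 → ∑ y, psq q (x * y) = 0

/-- unfolding over a fundamental domain -/
def T_UNZ : Prop := ∀ (m : ℕ), 1 ≤ m → ∀ D : Set (V m), DomZ m D →
    (∀ f : V m → ENNReal, Measurable f →
      ∫⁻ z in Shell m, f z ∂(hm m) =
        ∫⁻ z in D, ∑' γ : {γ : ZM m // IsUnit γ}, f (fun i j => (cR γ.1 * mt z) i j) ∂(hm m)) ∧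
    (∀ f : V m → ℂ, IntegrableOn f (Shell m) (hm m) →
      IntegrableOn (fun z => ∑' γ : {γ : ZM m // IsUnit γ}, f (fun i j => (cR γ.1 * mt z) i j)) D
        (hm m) ∧
      (∀ᵐ z ∂((hm m).restrict D),
        Summable fun γ : {γ : ZM m // IsUnit γ} => f (fun i j => (cR γ.1 * mt z) i j)) ∧
      ∫ z in Shell m, f z ∂(hm m) =
        ∫ z in D, ∑' γ : {γ : ZM m // IsUnit γ}, f (fun i j => (cR γ.1 * mt z) i j) ∂(hm m))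

/-- right translation of invariant functions -/
def T_RTI : Prop := ∀ (m : ℕ), 1 ≤ m → ∀ D : Set (V m), DomZ m D → ∀ f : V m → ENNReal,
    Measurable f →
    (∀ γ : ZM m, IsUnit γ → ∀ z : V m, (mt z).det ≠ 0 →
      f (fun i j => (cR γ * mt z) i j) = f z) →
    (∀ c : ℝ, 0 < c → ∀ z : V m, (mt z).det ≠ 0 → f (c • z) = f z) →
    ∀ w : Mat m, w.det ≠ 0 →
      ∫⁻ z in D, f (fun i j => (mt z * w) i j) ∂(hm m) = ∫⁻ z in D, f z ∂(hm m)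

/-- existence of the representatives -/
def T_EXT : Prop := ∀ m : ℕ, 1 ≤ m → ∃ T : ℕ → Finset (ZM m), RepsZ m T

/-- existence of the fundamental domain -/
def T_EXD : Prop := ∀ m : ℕ, 1 ≤ m → ∃ D : Set (V m), DomZ m D

/-- number of the representatives -/
def T_TNZ : Prop := ∀ m : ℕ, 1 ≤ m → ∃ C : ℝ, 0 < C ∧ ∀ T : ℕ → Finset (ZM m), RepsZ m T →
    ∀ n : ℕ, 1 ≤ n → ((T n).card : ℝ) ≤ C * (n : ℝ) ^ m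

/-! ### forms -/

def T_LMZ : Prop := ∀ (m q : ℕ) [NeZero q] (T : ℕ → Finset (ZM m)) (D : Set (V m)),
  SysZ m q T D → ∀ (F : Mat m → RM m q → ℂ) (lam : ℕ → ℂ) (mu : Fin m → ℂ),
  EigZ m q T F lam mu → NZ F →
    ∃ C : ℝ, 0 ≤ C ∧ ∀ n : ℕ, 1 ≤ n → n.Coprime q →
      ‖(n : ℂ) ^ (((m : ℂ) - 1) / 2) * lam n‖ ≤ C * (n : ℝ) ^ m

/-- one double coset -/
def T_EZ1 : Prop := ∀ (m q : ℕ) [NeZero q] (T : ℕ → Finset (ZM m)) (D : Set (V m)),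
  SysZ m q T D → ∀ (F : Mat m → RM m q → ℂ) (lam : ℕ → ℂ) (mu : Fin m → ℂ),
  EigZ m q T F lam mu →
  ∀ Φ : Mat m → ℂ, Tst m Φ → ∀ (ρ g : Mat m) (r : ℝ) (y : RM m q), ρ.det ≠ 0 → g.det ≠ 0 →
    0 < r →
    IntegrableOn (fun z : V m => Φ (kk r (mt z) ρ g) * F (mt z) y) (Shell m) (hm m) ∧
    ∫ z in Shell m, Φ (kk r (mt z) ρ g) * F (mt z) y ∂(hm m) =
      th1 Φ mu (r * (aN ρ)⁻¹) * F (ρ * g) y

/-- forms are eigenfunctions of `A_r` -/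
def T_EIZ : Prop := ∀ (m q : ℕ) [NeZero q] (T : ℕ → Finset (ZM m)) (D : Set (V m)),
  SysZ m q T D → ∀ (F : Mat m → RM m q → ℂ) (lam : ℕ → ℂ) (mu : Fin m → ℂ),
  EigZ m q T F lam mu →
  ∀ Φ : Mat m → ℂ, Tst m Φ → ∀ (g : Mat m) (r : ℝ) (x : RM m q), g.det ≠ 0 → 0 < r →
    opAz q Φ r D F g x = thF q Φ mu lam r * F g x

/-! ### Poisson summation, Fourier transform -/

open Classical in
def T_POZ : Prop := ∀ (m q : ℕ) [NeZero q], 1 ≤ m → 1 ≤ q → ∀ Φ : Mat m → ℂ, TstS m Φ →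
    ∀ (g h : Mat m) (r : ℝ) (c : RM m q), g.det ≠ 0 → h.det ≠ 0 → 0 < r →
    (Summable fun β : ZM m => ‖ft Φ (kk ((q : ℝ) / r) g (cR β) h)‖) ∧
    ∑' α : ZM m, (if cQ q α = c then Φ (kk r h (cR α) g) else 0) =
      ((r ^ (m ^ 2) / (q : ℝ) ^ (m ^ 2) : ℝ) : ℂ) *
        ∑' β : ZM m, psq q (cQ q β * c) * ft Φ (kk ((q : ℝ) / r) g (cR β) h)

/-- the Fourier transform of a smooth test function decays and is bi-invariant -/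
def T_FTG : Prop := ∀ (m : ℕ), 1 ≤ m → ∀ Φ : Mat m → ℂ, TstS m Φ →
  Dec m (fun w => (starRingEnd ℂ) (ft Φ w)) ∧ Dec m (ft Φ)

/-- weak bound for the local transform of a decaying function (constants depend on everything) -/
def T_THW : Prop := ∀ (m : ℕ), 1 ≤ m → ∀ (mu : Fin m → ℂ) (K : ℕ), ∑ j, mu j = 0 →
  ∃ N : ℕ, ∀ M : ℝ, 0 ≤ M → ∃ C : ℝ, 0 ≤ C ∧ ∀ Ψ : Mat m → ℂ, Continuous Ψ →
    (∀ z, ‖Ψ z‖ ≤ M * (1 + sz z) ^ (-(N : ℝ))) → ∀ r : ℝ, 0 < r →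
      IntegrableOn (fun z : V m => Ψ ((r⁻¹ * (aN (mt z))⁻¹) • mt z) * pw mu (mt z)) (Shell m)
        (hm m) ∧
      (r ≤ 1 → ∫⁻ z in Shell m, ENNReal.ofReal ‖Ψ ((r⁻¹ * (aN (mt z))⁻¹) • mt z) *
        pw mu (mt z)‖ ∂(hm m) ≤ ENNReal.ofReal (C * r ^ K))

/-! ### the L-function -/

/-- the L-function is entire; `Φ` with rapidly decreasing eigenvalue -/
def T_GLZ : Prop := ∀ (m q : ℕ) (lam : ℕ → ℂ) (mu : Fin m → ℂ), 1 ≤ m → ∑ j, mu j = 0 →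
  (∃ C : ℝ, ∀ n : ℕ, 1 ≤ n → n.Coprime q →
      ‖(n : ℂ) ^ (((m : ℂ) - 1) / 2) * lam n‖ ≤ C * (n : ℝ) ^ m) →
  ∀ χ : ℝ → ℝ, Prof χ →
  (∀ δ : ℝ, 0 < δ → δ ≤ 1 / 2 → ∀ N : ℕ, ∃ C : ℝ, ∀ r : ℝ, 1 ≤ r →
    ‖thF q (bump m χ δ) mu lam r‖ ≤ C * r ^ (-(N : ℝ))) →
  ∃ L : ℂ → ℂ, IsL m q lam L ∧ ∀ Φ : Mat m → ℂ, Tst m Φ →
    (∀ N : ℕ, ∃ C : ℝ, ∀ r : ℝ, 1 ≤ r → ‖thF q Φ mu lam r‖ ≤ C * r ^ (-(N : ℝ))) →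
    ∀ s : ℂ, Lm q Φ mu lam s = L s * Zf Φ mu s

/-- the two halves of the Mellin integral on the critical line -/
def T_SPZ : Prop := ∀ (m q : ℕ) (lam : ℕ → ℂ) (mu : Fin m → ℂ), 1 ≤ m → 1 ≤ q → ∑ j, mu j = 0 →
  ∀ Φ : Mat m → ℂ, Tst m Φ →
  (∀ N : ℕ, ∃ C : ℝ, ∀ r : ℝ, 1 ≤ r → ‖thF q Φ mu lam r‖ ≤ C * r ^ (-(N : ℝ))) →
  IntegrableOn (fun r : ℝ => ‖thF q Φ mu lam r‖ * r ^ (-((m : ℝ) ^ 2 / 2) - 1))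
    (Set.Ioc (0 : ℝ) (Real.sqrt q)) ∧
  IntegrableOn (fun r : ℝ => ‖thDz q Φ mu lam r‖ * r ^ (-((m : ℝ) ^ 2 / 2) - 1))
    (Set.Ioc (0 : ℝ) (Real.sqrt q)) ∧
  ∀ t : ℝ,
    ‖Lm q Φ mu lam (1 / 2 + t * Complex.I)‖ ≤
      (∫ r in Set.Ioc (0 : ℝ) (Real.sqrt q), ‖thF q Φ mu lam r‖ *
        r ^ (-((m : ℝ) ^ 2 / 2) - 1)) +
      ∫ r in Set.Ioc (0 : ℝ) (Real.sqrt q), ‖thDz q Φ mu lam r‖ *
        r ^ (-((m : ℝ) ^ 2 / 2) - 1)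

/-- test functions adapted to the parameters, `Re mu_j ≤ B m` -/
def T_PHX (B : ℕ → ℝ) : Prop := ∀ m : ℕ, 1 ≤ m → ∀ (ε : ℝ) (K : ℕ), 0 < ε →
  (m : ℝ) ^ 2 / 2 + ε ≤ K → ∃ (C c : ℝ) (A : ℕ), 0 < C ∧ 0 < c ∧ ∀ (mu : Fin m → ℂ) (t δ : ℝ), ∑ j, mu j = 0 →
    (∀ j, (mu j).re ≤ B m) → 0 < δ → δ ≤ 1 / 2 → δ * psz t mu ≤ c →
    ∃ Φ : Mat m → ℂ, TstS m Φ ∧ ThB Φ mu (C * δ⁻¹ ^ A) ε K ∧
      ThB (fun w => (starRingEnd ℂ) (ft Φ w)) mu (C * δ⁻¹ ^ A) ε K ∧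
      c * δ ^ (m ^ 2) ≤ ‖Zf Φ mu (1 / 2 + t * Complex.I)‖

/-- the fourth moment -/
def T_MOZ (B : ℕ → ℝ) : Prop := ∀ m : ℕ, 1 ≤ m → ∀ ε : ℝ, 0 < ε → ∃ C A : ℝ, 0 < C ∧ 0 < A ∧
  ∀ (q : ℕ) [NeZero q] (T : ℕ → Finset (ZM m)) (D : Set (V m)), SysZ m q T D →
  ∀ (ι : Type) [Fintype ι] [DecidableEq ι] (F : ι → Mat m → RM m q → ℂ) (lam : ι → ℕ → ℂ)
    (mu : ι → Fin m → ℂ), (∀ i, CuspZ m q T (F i) (lam i) (mu i)) →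
    (∀ i j, (mu i j).re ≤ B m) → Orthn D F →
    ∃ L : ι → ℂ → ℂ, (∀ i, IsL m q (lam i) (L i)) ∧ ∀ t : ι → ℝ,
      ∑ i, (‖L i (1 / 2 + t i * Complex.I)‖ * psz (t i) (mu i) ^ (-A)) ^ 4 ≤
        C * (q : ℝ) ^ ((m : ℝ) ^ 2 + ε)

end Pool.Agent.H27.L1.H34.GZ
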