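import Pool.Agent.H27.L1.H34.GM.Defs

/-!
Definitions for the fourth moment over the cusp forms of `GL_m(Z)` of principal level `q`
(page H34_GZ.md).
-/

namespace Pool.Agent.H27.L1.H34.GZ

open MeasureTheory Pool.Agent.H27.L1.H34.GM

/-- integer matrices -/
abbrev ZM (m : ℕ) := Matrix (Fin m) (Fin m) ℤ

/-- matrices modulo `q` -/
abbrev RM (m q : ℕ) := Matrix (Fin m) (Fin m) (ZMod q)

/-- the real matrix of an integer matrix -/
noncomputable def cR {m : ℕ} (α : ZM m) : Mat m := α.map (fun n : ℤ => (n : ℝ))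

/-- reduction modulo `q` -/
def cQ {m : ℕ} (q : ℕ) (α : ZM m) : RM m q := α.map (fun n : ℤ => (n : ZMod q))

/-- the additive character of `M_m(Z/q)` given by the trace -/
noncomputable def psq {m : ℕ} (q : ℕ) (a : RM m q) : ℂ := ee ((a.trace.val : ℝ) / q)

/-- `T n` is a set of representatives of the classes `γ α`, `γ` in `GL_m(Z)`, of the integer matrices
with `|det| = n` -/
structure RepsZ (m : ℕ) (T : ℕ → Finset (ZM m)) : Prop where
  mem : ∀ n : ℕ, 1 ≤ n → ∀ α ∈ T n, α.det.natAbs = n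
  uniq : ∀ n : ℕ, 1 ≤ n → ∀ β : ZM m, β.det.natAbs = n →
    ∃! α, α ∈ T n ∧ ∃ γ : ZM m, IsUnit γ ∧ β = γ * α

/-- `D` is a strict fundamental domain of `GL_m(Z)` on the shell `1 ≤ |det z|^(1/m) < e` -/
structure DomZ (m : ℕ) (D : Set (V m)) : Prop where
  meas : MeasurableSet D
  shell : ∀ z ∈ D, 1 ≤ aN (mt z) ∧ aN (mt z) < Real.exp 1
  fund : ∀ z : V m, 1 ≤ aN (mt z) → aN (mt z) < Real.exp 1 →
    ∃! γ : ZM m, IsUnit γ ∧ ((fun i j => (cR γ * mt z) i j) : V m) ∈ D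

/-- bounded Hecke eigenforms on `GL_m(Z) \ (GL_m(R) × GL_m(Z/q))`, spherical at infinity -/
structure EigZ (m q : ℕ) [NeZero q] (T : ℕ → Finset (ZM m)) (F : Mat m → RM m q → ℂ)
    (lam : ℕ → ℂ) (mu : Fin m → ℂ) : Prop where
  cont : ∀ x, ContinuousOn (fun g => F g x) {g | g.det ≠ 0}
  supp : ∀ g x, ¬ IsUnit x → F g x = 0
  auto : ∀ γ : ZM m, IsUnit γ → ∀ g x, g.det ≠ 0 → F (cR γ * g) (cQ q γ * x) = F g x
  scal : ∀ r : ℝ, 0 < r → ∀ g x, g.det ≠ 0 → F (r • g) x = F g x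
  orth : ∀ k : Mat m, k * k.transpose = 1 → ∀ g x, g.det ≠ 0 → F (g * k) x = F g x
  hecke : ∀ n : ℕ, 1 ≤ n → n.Coprime q → ∀ g x, g.det ≠ 0 →
    ∑ α ∈ T n, F (cR α * g) (cQ q α * x) = (n : ℂ) ^ (((m : ℂ) - 1) / 2) * lam n * F g x
  tr0 : ∑ j, mu j = 0
  arch : ∀ k : Mat m → ℂ, Tst m k → ∀ g x, g.det ≠ 0 →
    ∫ z, k (mt z) * F (g * (mt z)⁻¹) x ∂(hm m) = F g x * ∫ z, k (mt z) * pw mu (mt z) ∂(hm m)
  bdd : ∃ B : ℝ, ∀ g x, g.det ≠ 0 → ‖F g x‖ ≤ B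

/-- the block of the rows `≥ k` and the columns `< k` of `u` -/
noncomputable def nk {m : ℕ} (k : ℕ) (u : V m) : Mat m :=
  Matrix.of fun i j => if (j : ℕ) < k ∧ k ≤ (i : ℕ) then u i j else 0

/-- cusp forms of principal level `q`, primitive at `q` -/
structure CuspZ (m q : ℕ) [NeZero q] (T : ℕ → Finset (ZM m)) (F : Mat m → RM m q → ℂ)
    (lam : ℕ → ℂ) (mu : Fin m → ℂ) : Prop extends EigZ m q T F lam mu where
  prim : ∀ a : RM m q, ¬ IsUnit a → ∀ g, g.det ≠ 0 → ∑ y, psq q (a * y) * F g y = 0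
  cusp : ∀ k : ℕ, 0 < k → k < m → ∀ g x, g.det ≠ 0 →
    ∫ u in Set.Icc (0 : V m) 1, F ((1 + (q : ℝ) • nk k u) * g) x = 0

/-! ### operators -/

/-- the operator `A_r` -/
noncomputable def opAz {m : ℕ} (q : ℕ) (Φ : Mat m → ℂ) (r : ℝ) (D : Set (V m))
    (F : Mat m → RM m q → ℂ) (g : Mat m) (x : RM m q) : ℂ :=
  ∫ z in D, ∑' α : ZM m, Φ (kk r (mt z) (cR α) g) * F (mt z) (cQ q α * x) ∂(hm m)

open Classical in
/-- the operator `A'_r` -/
noncomputable def opBz {m : ℕ} (q : ℕ) (Φ : Mat m → ℂ) (r : ℝ) (D : Set (V m))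
    (F : Mat m → RM m q → ℂ) (g : Mat m) (x : RM m q) : ℂ :=
  ∫ z in D, ∑' β : ZM m, (if IsUnit (cQ q β) then
    Φ (kk r g (cR β) (mt z)) * F (mt z) (Ring.inverse (cQ q β) * x) else 0) ∂(hm m)

open Classical in
/-- the operator with the determinant decoupled -/
noncomputable def opCz {m : ℕ} (q : ℕ) (Φ : Mat m → ℂ) (y : ℝ) (D : Set (V m))
    (F : Mat m → RM m q → ℂ) (g : Mat m) (x : RM m q) : ℂ :=
  ∫ z in D, ∑' α : ZM m, (if y / 2 < (α.det.natAbs : ℝ) ∧ (α.det.natAbs : ℝ) ≤ y then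
    Φ (kk (aN (cR α)) (mt z) (cR α) g) * F (mt z) (cQ q α * x) else 0) ∂(hm m)

open Classical in
/-- the Gauss sum operator -/
noncomputable def opWz {m : ℕ} (q : ℕ) [NeZero q] (f : RM m q → ℂ) (x : RM m q) : ℂ :=
  if IsUnit x then
    (((q : ℝ) ^ (-((m : ℝ) ^ 2) / 2) : ℝ) : ℂ) * ∑ y, psq q (y * Ring.inverse x) * f y
  else 0

open Classical in
/-- the adjoint of the Gauss sum operator -/
noncomputable def opVz {m : ℕ} (q : ℕ) [NeZero q] (f : RM m q → ℂ) (y : RM m q) : ℂ :=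
  if IsUnit y then
    (((q : ℝ) ^ (-((m : ℝ) ^ 2) / 2) : ℝ) : ℂ) *
      ∑ x, (if IsUnit x then (starRingEnd ℂ) (psq q (y * Ring.inverse x)) * f x else 0)
  else 0

/-- the dual eigenvalue -/
noncomputable def thDz {m : ℕ} (q : ℕ) (Φ : Mat m → ℂ) (mu : Fin m → ℂ) (lam : ℕ → ℂ) (r : ℝ) : ℂ :=
  (((q : ℝ) ^ ((m : ℝ) ^ 2 / 2) * ((q : ℝ) / r) ^ (-((m : ℝ) ^ 2)) : ℝ) : ℂ) *
    thF q Φ mu lam ((q : ℝ) / r)

/-- the terms `y / 2 < n ≤ y` -/
noncomputable def DF (m q : ℕ) (lam : ℕ → ℂ) (y : ℝ) : ℂ :=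
  ∑ n ∈ Finset.Icc 1 ⌊y⌋₊, if y / 2 < (n : ℝ) ∧ n.Coprime q then
    (n : ℂ) ^ (((m : ℂ) - 1) / 2) * lam n else 0

/-- the terms `n ≤ y` -/
noncomputable def SF (m q : ℕ) (lam : ℕ → ℂ) (y : ℝ) : ℂ :=
  ∑ n ∈ Finset.Icc 1 ⌊y⌋₊, if n.Coprime q then (n : ℂ) ^ (((m : ℂ) - 1) / 2) * lam n else 0

/-! ### reduction theory -/

/-- the Euclidean norm of a row -/
noncomputable def rowN {m : ℕ} (v : Fin m → ℝ) : ℝ := Real.sqrt (∑ i, v i ^ 2)

/-- the vector of the lattice `Z^m b` with the coordinates `c` -/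
noncomputable def vb {m : ℕ} (c : Fin m → ℤ) (b : Mat m) : Fin m → ℝ :=
  Matrix.vecMul (fun i => (c i : ℝ)) b

/-- Siegel reduced: `z = n · diag(a) · k` -/
structure Sgl {m : ℕ} (z n : Mat m) (a : Fin m → ℝ) (k : Mat m) : Prop where
  eq : z = n * Matrix.diagonal a * k
  orth : k * k.transpose = 1
  pos : ∀ i, 0 < a i
  one : ∀ i, n i i = 1
  up : ∀ i j, i < j → n i j = 0
  lo : ∀ i j, j < i → |n i j| ≤ 1 / 2
  ord : ∀ i j, i ≤ j → a i ≤ 2 ^ m * a j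

/-- the Gram-Schmidt lengths of the rows -/
noncomputable def gs {m : ℕ} (z : Mat m) (i : Fin m) : ℝ :=
  Real.sqrt (mnr z.transpose ((i : ℕ) + 1) / mnr z.transpose (i : ℕ))

/-- the length of the shortest non zero vector of the lattice -/
noncomputable def lz {m : ℕ} (z : Mat m) : ℝ :=
  ⨅ c : {c : Fin m → ℤ // c ≠ 0}, rowN (vb (c : Fin m → ℤ) z)

/-- `prod_{i<j} a_j / a_i` -/
noncomputable def skw {m : ℕ} (a : Fin m → ℝ) : ℝ :=
  ∏ i, ∏ j, if i < j then a j / a i else 1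

/-- skewness of the lattice: infimum over the Siegel data -/
noncomputable def Tht {m : ℕ} (z : Mat m) : ENNReal :=
  ⨅ (γ : ZM m) (_ : IsUnit γ) (n : Mat m) (a : Fin m → ℝ) (k : Mat m)
    (_ : Sgl (cR γ * z) n a k), ENNReal.ofReal (skw a)

/-- the part of the domain where all gaps are at most `Y` -/
def DY {m : ℕ} (D : Set (V m)) (Y : ℝ) : Set (V m) :=
  {z | z ∈ D ∧ ∀ γ : ZM m, IsUnit γ → ∀ (n : Mat m) (a : Fin m → ℝ) (k : Mat m),
    Sgl (cR γ * mt z) n a k → ∀ i j : Fin m, (i : ℕ) + 1 = j → a j ≤ Y * a i}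

/-! ### lattices -/

/-- the number of the subgroups of `Z^m` containing the rows of `x` -/
noncomputable def NL {m : ℕ} (x : ZM m) : ℕ :=
  Nat.card {M : AddSubgroup (Fin m → ℤ) // ∀ i, x i ∈ M}

/-- the standard flag -/
def flg (m i : ℕ) : AddSubgroup (Fin m → ℤ) where
  carrier := {v | ∀ j : Fin m, i ≤ (j : ℕ) → v j = 0}
  add_mem' := by
    intro a b ha hb j hj
    simp [ha j hj, hb j hj]
  zero_mem' := by
    intro j _
    rfl
  neg_mem' := by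
    intro a ha j hj
    simp [ha j hj]

/-- the integer vectors in the rational span of the first `i` rows of `x` -/
noncomputable def Lx {m : ℕ} (x : ZM m) (i : ℕ) : AddSubgroup (Fin m → ℤ) :=
  (Submodule.span ℚ {w : Fin m → ℚ | ∃ j : Fin m, (j : ℕ) < i ∧ w = fun l => ((x j l : ℤ) : ℚ)}
    ).toAddSubgroup.comap ((Int.castAddHom ℚ).compLeft (Fin m))

/-- non singular integer matrices whose rows are bounded in the metric of `b` -/
def inBox {m : ℕ} (b : Mat m) (v : Fin m → ℝ) (x : ZM m) : Prop :=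
  x.det ≠ 0 ∧ ∀ i, rowN (vb (x i) b) ≤ v i

/-- a choice of Siegel reduced bases of all sublattices -/
structure Sel {m : ℕ} (b : Mat m) (sel : AddSubgroup (Fin m → ℤ) → ZM m)
    (vs : AddSubgroup (Fin m → ℤ) → Fin m → ℝ) : Prop where
  det : ∀ L, L.index ≠ 0 → (sel L).det ≠ 0
  gen : ∀ L, L.index ≠ 0 → AddSubgroup.closure (Set.range (sel L)) = L
  sgl : ∀ L, L.index ≠ 0 → ∃ n k : Mat m, Sgl (cR (sel L) * b) n (vs L) k

/-! ### kernels -/

open Classical in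
/-- the kernel of one operator -/
noncomputable def Pz {m q : ℕ} (y : ℝ) (g : Mat m) (x : RM m q) (h : Mat m) (w : RM m q) :
    ENNReal :=
  ∑' α : ZM m, if cQ q α * x = w ∧ IsUnit w ∧ y / 2 < (α.det.natAbs : ℝ) ∧
    (α.det.natAbs : ℝ) ≤ y ∧ sz (kk (aN (cR α)) h (cR α) g) ≤ 2 then 1 else 0

open Classical in
/-- the majorant of the composed kernel -/
noncomputable def Kz {m q : ℕ} (y : ℝ) (g : Mat m) (x : RM m q) (h : Mat m) (w : RM m q) :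
    ENNReal :=
  ∑' γ : ZM m, if cQ q γ * x = w ∧ IsUnit w ∧ y ^ 2 / 4 < (γ.det.natAbs : ℝ) ∧
    (γ.det.natAbs : ℝ) ≤ y ^ 2 ∧ sz (kk (aN (cR γ)) h (cR γ) g) ≤ 4 * m then (NL γ : ENNReal) else 0

end Pool.Agent.H27.L1.H34.GZ
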