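import Pool.Agent.H27.L1.H34.GZ.Defs

/-!
Targets of the board gz1: lattices, reduction theory, volumes (page H34_GZ.md, sections 1 - 3).
-/

namespace Pool.Agent.H27.L1.H34.GZ

open MeasureTheory Pool.Agent.H27.L1.H34.GM

/-! ### reduction theory -/

/-- Siegel reduced representatives exist -/
def T_RED : Prop := ∀ (m : ℕ) (z : Mat m), z.det ≠ 0 → ∃ γ : ZM m, IsUnit γ ∧
  ∃ (n : Mat m) (a : Fin m → ℝ) (k : Mat m), Sgl (cR γ * z) n a k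

/-- lattice points of a Siegel reduced lattice -/
def T_CNT : Prop := ∀ (m : ℕ) (b n : Mat m) (a : Fin m → ℝ) (k : Mat m), Sgl b n a k →
  (∀ ρ : ℝ, 0 ≤ ρ → {c : Fin m → ℤ | rowN (vb c b) ≤ ρ}.Finite ∧
    ({c : Fin m → ℤ | rowN (vb c b) ≤ ρ}.ncard : ℝ) ≤ ∏ j, (1 + 2 * ρ / a j)) ∧
  (∀ i, rowN (b i) ≤ m * 2 ^ m * a i) ∧
  (∀ (c : Fin m → ℤ) (t : Fin m), (∀ j, t < j → c j = 0) → c t ≠ 0 → a t ≤ rowN (vb c b)) ∧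
  |b.det| = ∏ j, a j

/-- comparison of the lengths of a lattice and of a sublattice, up to a bounded matrix -/
def T_CMA : Prop := ∀ (m : ℕ) (c : ℝ), 1 ≤ m → 0 < c → ∃ C : ℝ, 0 < C ∧
  ∀ (b n : Mat m) (a : Fin m → ℝ) (k b' n' : Mat m) (a' : Fin m → ℝ) (k' : Mat m) (x : ZM m)
    (w : Mat m), Sgl b n a k → Sgl b' n' a' k' → x.det ≠ 0 → w.det ≠ 0 → sz w⁻¹ ≤ c →
    b' = cR x * b * w → ∀ i, a i ≤ C * a' i

/-! ### volumes -/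

/-- the Siegel lengths are the Gram-Schmidt lengths; measurability -/
def T_GSU : Prop := (∀ (m : ℕ) (z n : Mat m) (a : Fin m → ℝ) (k : Mat m), Sgl z n a k → a = gs z) ∧
  (∀ m : ℕ, Measurable (fun z : V m => gs (mt z))) ∧
  ∀ m : ℕ, MeasurableSet {z : V m | ∃ n k : Mat m, Sgl (mt z) n (gs (mt z)) k}

/-- one row: the component in the span of the `u j` is bounded, the orthogonal component is free -/
def T_VO2 : Prop := ∀ m i : ℕ, i < m → ∃ C : ℝ, 0 < C ∧ ∀ (u : Fin i → Fin m → ℝ)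
  (a : Fin i → ℝ) (f : ℝ → ENNReal), Measurable f → (∀ j, 0 < a j) →
  (∀ j l, ∑ t, u j t * u l t = if j = l then 1 else 0) →
    ∫⁻ w : Fin m → ℝ, (if ∀ j, |∑ t, w t * u j t| ≤ a j / 2 then
      f (Real.sqrt (∑ t, w t ^ 2 - ∑ j, (∑ t, w t * u j t) ^ 2)) else 0) ≤
    ENNReal.ofReal (C * ∏ j, a j) *
      ∫⁻ t in Set.Ioi (0 : ℝ), f t * ENNReal.ofReal (t ^ (m - 1 - i))

/-- volume of the Siegel set in terms of the lengths -/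
def T_VOL : Prop := ∀ m : ℕ, 1 ≤ m → ∃ C : ℝ, 0 < C ∧ ∀ f : (Fin m → ℝ) → ENNReal, Measurable f →
    ∫⁻ z in {z : V m | ∃ n k : Mat m, Sgl (mt z) n (gs (mt z)) k}, f (gs (mt z)) ≤
      ENNReal.ofReal C * ∫⁻ a in {a : Fin m → ℝ | ∀ i, 0 < a i},
        f a * ENNReal.ofReal (∏ j : Fin m, a j ^ (2 * (m - 1 - (j : ℕ))))

/-- covering of a fundamental domain -/
def T_CVZ : Prop := ∀ m : ℕ, 1 ≤ m → ∀ D : Set (V m), DomZ m D → ∀ Ω : Set (V m),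
    MeasurableSet Ω →
    (∀ z ∈ Shell m, ∃ γ : ZM m, IsUnit γ ∧ ((fun i j => (cR γ * mt z) i j) : V m) ∈ Ω) →
    ∀ f : V m → ENNReal, Measurable f →
    (∀ γ : ZM m, IsUnit γ → ∀ z : V m, (mt z).det ≠ 0 →
      f (fun i j => (cR γ * mt z) i j) = f z) →
    ∫⁻ z in D, f z ∂(hm m) ≤ ∫⁻ z in Ω ∩ Shell m, f z ∂(hm m)

/-- the integrals over the lengths -/
def T_VLA : Prop := ∀ m : ℕ, 1 ≤ m → ∃ C : ℝ, 0 < C ∧
    (∀ Y : ℝ, 2 ≤ Y → ∫⁻ a in {a : Fin m → ℝ | (∀ i, 0 < a i) ∧ 1 ≤ ∏ i, a i ∧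
        ∏ i, a i < Real.exp m ∧ (∀ i j, i ≤ j → a i ≤ 2 ^ m * a j) ∧
        ∀ i j : Fin m, (i : ℕ) + 1 = j → a j ≤ Y * a i},
      ENNReal.ofReal (skw a * ∏ j : Fin m, a j ^ (2 * (m - 1 - (j : ℕ)))) ≤
        ENNReal.ofReal (C * (1 + Real.log Y) ^ m)) ∧
    ∫⁻ a in {a : Fin m → ℝ | (∀ i, 0 < a i) ∧ 1 ≤ ∏ i, a i ∧
        ∏ i, a i < Real.exp m ∧ ∀ i j, i ≤ j → a i ≤ 2 ^ m * a j},
      ENNReal.ofReal (∏ j : Fin m, a j ^ (2 * (m - 1 - (j : ℕ)))) ≤ ENNReal.ofReal C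

/-- the skewness against the Haar measure -/
def T_VLM : Prop := ∀ m : ℕ, 1 ≤ m → ∃ (C : ℝ) (K : ℕ), 0 < C ∧ ∀ D : Set (V m), DomZ m D →
    hm m D ≤ ENNReal.ofReal C ∧ ∀ Y : ℝ, 2 ≤ Y →
    ∫⁻ z in DY D Y, Tht (mt z) ∂(hm m) ≤ ENNReal.ofReal (C * (1 + Real.log Y) ^ K)

/-! ### intermediate lattices -/

/-- integer matrices and the subgroups of finite index -/
def T_IDX : Prop := ∀ m : ℕ,
  (∀ x : ZM m, x.det ≠ 0 → (AddSubgroup.closure (Set.range x)).index = x.det.natAbs) ∧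
  (∀ L : AddSubgroup (Fin m → ℤ), L.index ≠ 0 → ∃ x : ZM m, x.det ≠ 0 ∧
    AddSubgroup.closure (Set.range x) = L) ∧
  (∀ x y : ZM m, (∀ i, y i ∈ AddSubgroup.closure (Set.range x)) ↔ ∃ u : ZM m, y = u * x) ∧
  (∀ x y : ZM m, x.det ≠ 0 →
    (AddSubgroup.closure (Set.range x) = AddSubgroup.closure (Set.range y) ↔
      ∃ u : ZM m, IsUnit u ∧ y = u * x)) ∧
  (∀ x : ZM m, x.det ≠ 0 → {L : AddSubgroup (Fin m → ℤ) | ∀ i, x i ∈ L}.Finite ∧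
    ∀ L : AddSubgroup (Fin m → ℤ), (∀ i, x i ∈ L) → L.index ≠ 0 ∧ L.index ≤ x.det.natAbs)

/-- many points of the saturation of the span of the first `s` vectors of a reduced basis -/
def T_STA : Prop := ∀ m : ℕ, 1 ≤ m → ∃ C : ℝ, 1 ≤ C ∧ ∀ (b : Mat m) (c : ZM m) (n : Mat m)
  (kap : Fin m → ℝ) (k : Mat m), b.det ≠ 0 → c.det ≠ 0 → Sgl (cR c * b) n kap k →
  ∀ (ρ : ℝ) (s : ℕ), s ≤ m → 0 < ρ → (∀ t : Fin m, (t : ℕ) < s → kap t ≤ 2 ^ m * ρ) →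
  ∀ W : AddSubgroup (Fin m → ℤ), (∃ t : Fin m, (t : ℕ) < s ∧ c t ∉ W) →
    {w : Fin m → ℤ | w ∈ Lx c s ∧ w ∉ W ∧ rowN (vb w b) ≤ C * ρ}.Finite ∧
    ((AddSubgroup.closure (Set.range c)).relIndex (Lx c s) : ℝ) *
      ∏ t : Fin m, (if (t : ℕ) < s then 1 + ρ / kap t else 1) ≤
      C * ({w : Fin m → ℤ | w ∈ Lx c s ∧ w ∉ W ∧ rowN (vb w b) ≤ C * ρ}.ncard : ℝ)

open Classical in
def T_STR : Prop := ∀ m : ℕ, 1 ≤ m → ∃ C : ℝ, 1 ≤ C ∧ ∀ (b n : Mat m) (a : Fin m → ℝ) (k : Mat m),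
  Sgl b n a k → ∀ v : Fin m → ℝ, (∀ i, 0 < v i) → Monotone v →
  ∀ U : AddSubgroup (Fin m → ℤ), U.index ≠ 0 →
    ∑' x : ZM m, (if inBox b v x ∧ ∀ i, x i ∈ U then (1 : ENNReal) else 0) ≤
      ENNReal.ofReal C * ∑' x : ZM m, if inBox b (fun i => C * v i) x then
        ∏ i ∈ Finset.range m, ((U.relIndex (Lx x (i + 1)) : ℕ) : ENNReal)⁻¹ else 0

/-- bases adapted to the flag of `x` -/
def T_ADB : Prop := ∀ (m : ℕ) (x : ZM m), x.det ≠ 0 →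
  ∃ e : (Fin m → ℤ) ≃+ (Fin m → ℤ), ∀ i ≤ m,
    (flg m i).map (e : (Fin m → ℤ) →+ (Fin m → ℤ)) = Lx x i

open Classical in
def T_FLG : Prop := ∀ (m i : ℕ), i ≤ m → ∀ H : ℝ, 1 ≤ H → ∀ K : ℕ → AddSubgroup (Fin m → ℤ),
  (∀ j, K j ≤ flg m j) → (∀ j, K j ≤ K (j + 1)) → (∀ j, (K j).relIndex (flg m j) ≠ 0) →
    ∑' M : AddSubgroup (Fin m → ℤ), (if M ≤ flg m i ∧ M.relIndex (flg m i) ≠ 0 ∧
      (M.relIndex (flg m i) : ℝ) ≤ H ∧ ∀ j ≤ i, M ⊓ flg m j ≤ K j then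
        ∏ j ∈ Finset.range i, ((M.relIndex (flg m (j + 1)) : ℕ) : ENNReal)⁻¹ else 0) ≤
      ENNReal.ofReal ((1 + Real.log H) ^ i) *
        ∏ j ∈ Finset.range i, (((K (j + 1)).relIndex (flg m (j + 1)) : ℕ) : ENNReal)⁻¹

open Classical in
def T_CHN : Prop := ∀ (m : ℕ) (H : ℝ), 1 ≤ H →
    ∑' K : Fin m → AddSubgroup (Fin m → ℤ), (if (∀ j, K j ≤ flg m ((j : ℕ) + 1)) ∧ Monotone K ∧
      (∀ j, (K j).relIndex (flg m ((j : ℕ) + 1)) ≠ 0 ∧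
        ((K j).relIndex (flg m ((j : ℕ) + 1)) : ℝ) ≤ H) then
      ∏ j, (((K j).relIndex (flg m ((j : ℕ) + 1)) : ℕ) : ENNReal)⁻¹ else 0) ≤
    ENNReal.ofReal ((1 + Real.log H) ^ (m * m))

open Classical in
def T_WSM : Prop := ∀ m : ℕ, ∃ (C : ℝ) (K : ℕ), 0 < C ∧ ∀ H : ℝ, 1 ≤ H →
    ∑' p : AddSubgroup (Fin m → ℤ) × AddSubgroup (Fin m → ℤ),
      (if p.1.index ≠ 0 ∧ p.2.index ≠ 0 ∧ (p.1.index : ℝ) ≤ H ∧ (p.2.index : ℝ) ≤ H then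
        ∏ i ∈ Finset.range m, (((p.1 ⊓ p.2).relIndex (flg m (i + 1)) : ℕ) : ENNReal)⁻¹ else 0) ≤
    ENNReal.ofReal (C * (1 + Real.log H) ^ K)

open Classical in
/-- the average of the square of the number of intermediate lattices -/
def T_DAV : Prop := ∀ m : ℕ, 1 ≤ m → ∃ (C : ℝ) (K : ℕ), 0 < C ∧
  ∀ (b n : Mat m) (a : Fin m → ℝ) (k : Mat m), Sgl b n a k →
  ∀ v : Fin m → ℝ, (∀ i, 0 < v i) → Monotone v → ∀ H : ℝ, 1 ≤ H →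
  (∀ x : ZM m, inBox b v x → |(x.det : ℝ)| ≤ H) →
    ∑' x : ZM m, (if inBox b v x then (NL x : ENNReal) ^ 2 else 0) ≤
      ENNReal.ofReal (C * (1 + Real.log H) ^ K * ∏ i, ∏ j, (1 + v i / a j))

/-- the inequality for the exponents -/
def T_INQ : Prop := ∀ (m : ℕ) (x y : Fin m → ℝ) (Q : ℝ), Monotone x → Monotone y →
  (∀ i, y i ≤ x i) → 0 ≤ Q → ∑ i, x i ≤ ∑ i, y i + m * Q →
    ∑ i, ∑ j, (max (y j - x i) 0 + max (x i - Q - y j) 0) ≤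
      ∑ i, ∑ j, (if i < j then (x j - x i) + (y j - y i) else 0)

/-- the product estimate -/
def T_EGX : Prop := ∀ (m : ℕ) (c : ℝ), 1 ≤ m → 0 < c → ∃ C : ℝ, 0 < C ∧
  ∀ (V A : Fin m → ℝ) (q w : ℝ), (∀ i, 0 < V i) → (∀ i, 0 < A i) → Monotone V → Monotone A →
    1 ≤ q → 0 < w → (∀ i, A i ≤ c * V i) → ∏ i, V i ≤ c * w * ∏ i, A i →
    ∏ i, ∏ j, ((1 + V i / A j) * (1 + V i / (q * A j))) ≤
      C * w ^ m * (1 + w / q ^ m) ^ m * skw A * skw V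

open Classical in
/-- many reduced bases -/
def T_MUL : Prop := ∀ m : ℕ, 1 ≤ m → ∃ C : ℝ, 1 ≤ C ∧ ∀ (b : Mat m) (v : Fin m → ℝ),
  (∀ i, 0 < v i) → Monotone v → ∀ (S : Set (AddSubgroup (Fin m → ℤ)))
    (sel : AddSubgroup (Fin m → ℤ) → ZM m),
  (∀ L ∈ S, (sel L).det ≠ 0 ∧ AddSubgroup.closure (Set.range (sel L)) = L ∧
    ∀ i, rowN (vb (sel L i) b) ≤ v i) →
  ∀ f : ZM m → ENNReal, (∀ x u : ZM m, IsUnit u → f (u * x) = f x) →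
    ENNReal.ofReal (skw v) * ∑' L : S, f (sel L) ≤
      ∑' x : ZM m, if inBox b (fun i => C * v i) x then f x else 0

open Classical in
/-- the energy in the cusp -/
def T_EGY : Prop := ∀ m : ℕ, 1 ≤ m → ∀ C0 : ℝ, 0 ≤ C0 → ∃ (C : ℝ) (K : ℕ), 0 < C ∧
  ∀ (q : ℕ), 1 ≤ q → ∀ (b n : Mat m) (a : Fin m → ℝ) (k : Mat m), Sgl b n a k →
  1 ≤ aN b → aN b < Real.exp 1 → ∀ Y : ℝ, 1 ≤ Y →
  (∀ i j : Fin m, (i : ℕ) + 1 = j → a j ≤ Y * a i) → ∀ y : ℝ, 1 ≤ y →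
  ∀ (sel : AddSubgroup (Fin m → ℤ) → ZM m) (vs : AddSubgroup (Fin m → ℤ) → Fin m → ℝ),
  Sel b sel vs →
    ∑' L : AddSubgroup (Fin m → ℤ), (if y ^ 2 / 4 < (L.index : ℝ) ∧ (L.index : ℝ) ≤ y ^ 2 then
      (NL (sel L) : ENNReal) ^ 2 * ENNReal.ofReal (∏ i, ∏ j, (1 + C0 * vs L i / (q * a j)))
        else 0) ≤
      ENNReal.ofReal (C * (1 + Real.log (y * Y)) ^ K * y ^ (2 * m) *
        (1 + y ^ 2 / (q : ℝ) ^ m) ^ m * skw a)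

end Pool.Agent.H27.L1.H34.GZ
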